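import Pool.Agent.Q30.Cone.Nets

/-!
# Norm convergence of increasing nets with a supremum does not give property (OC)

`X = c₀ × ℝ²` with the cone of all `(x, a, b)` with `a, b ≥ 0` and `x k ≥ -√(a b)` for all `k`.
-/

set_option autoImplicit false
open Filter Topology

namespace Pool.Agent.Results.MP_5ab9c0_an.SupremaConvergeOnly

open Pool.Agent.Q30.Cone

universe v

/-- There are a Banach space `X` and a closed cone `K` in it such that every increasing net which
has a supremum converges in norm to it, while some increasing sequence which is order bounded from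
above is not norm convergent. -/
theorem result : ∃ (X : Type) (_ : NormedAddCommGroup X) (_ : NormedSpace ℝ X) (K : Set X),
    CompleteSpace X ∧ IsClosedCone K ∧
      (∀ (J : Type v) [Preorder J] [IsDirectedOrder J] [Nonempty J] (x : J → X) (s : X),
        Increasing K x → IsSup K x s → Tendsto x atTop (𝓝 s)) ∧
      ∃ x : ℕ → X, Increasing K x ∧ (∃ u : X, IsUB K x u) ∧ ¬ ∃ l : X, Tendsto x atTop (𝓝 l) :=
  ⟨XX, inferInstance, inferInstance, KK, inferInstance, KK_cone,
    fun _ _ _ _ _ _ hx hs => net_core hx hs, uu, uu_incr,
    ⟨(0, 1, 1), (minUB one_pos one_pos (by norm_num)).1⟩, uu_not_conv⟩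

end Pool.Agent.Results.MP_5ab9c0_an.SupremaConvergeOnly
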